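import Pool.Agent.H88FU.Vec

/-! The averaging argument: `N` unit vectors in dimension `n` have `sum of tau over ordered pairs ≥ (N - n) π`. -/

open Real Module

namespace Pool.Agent.H88FU

theorem P_dim_zero (k : ℕ) : P 0 (k + 1) := by
  intro E _ _ _ hE S x hx hS
  exfalso
  obtain ⟨i, hi⟩ : S.Nonempty := by rw [← Finset.card_pos, hS]; omega
  have h1 : Subsingleton E := finrank_zero_iff.1 hE
  have h2 : x i = 0 := Subsingleton.elim _ _
  have h3 := hx i hi
  rw [h2, norm_zero] at h3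
  exact zero_ne_one h3

section sums

variable (S : Finset ℕ) (f : ℕ → ℕ → ℕ → ℝ)

theorem rot1 : ∑ v ∈ S, ∑ i ∈ S, ∑ j ∈ S, f i j v = ∑ v ∈ S, ∑ i ∈ S, ∑ j ∈ S, f v i j := by
  rw [Finset.sum_comm]
  exact Finset.sum_congr rfl fun i _ => Finset.sum_comm

theorem rot2 : ∑ v ∈ S, ∑ i ∈ S, ∑ j ∈ S, f j v i = ∑ v ∈ S, ∑ i ∈ S, ∑ j ∈ S, f v i j := by
  have h : ∑ v ∈ S, ∑ i ∈ S, ∑ j ∈ S, f j v i = ∑ v ∈ S, ∑ j ∈ S, ∑ i ∈ S, f j v i :=
    Finset.sum_congr rfl fun v _ => Finset.sum_comm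
  rw [h, Finset.sum_comm]

end sums

variable {E : Type} [NormedAddCommGroup E] [InnerProductSpace ℝ E]

/-- distinct triples -/
def Dist (v i j : ℕ) : Prop := v ≠ i ∧ v ≠ j ∧ i ≠ j

open Classical in
noncomputable def Bf (x : ℕ → E) (v i j : ℕ) : ℝ :=
  if Dist v i j then (π / 2 - tau (x v) (x i) - tau (x v) (x j)) * tau (pr (x v) (x i)) (pr (x v) (x j)) else 0

open Classical in
noncomputable def Cf (x : ℕ → E) (v i j : ℕ) : ℝ := if Dist v i j then tau (x v) (x i) else 0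

theorem Dist.rot {v i j : ℕ} (h : Dist v i j) : Dist i j v := ⟨h.2.2, h.1.symm, h.2.1.symm⟩

theorem sum_Cf (x : ℕ → E) (S : Finset ℕ) :
    ∑ v ∈ S, ∑ i ∈ S, ∑ j ∈ S, Cf x v i j = ((S.card : ℝ) - 2) * T2 x S := by
  classical
  unfold T2
  rw [Finset.mul_sum]
  refine Finset.sum_congr rfl fun v hv => ?_
  rw [Finset.mul_sum]
  refine Finset.sum_congr rfl fun i hi => ?_
  by_cases hvi : v = i
  · have : ∀ j ∈ S, Cf x v i j = 0 := fun j _ => by
      unfold Cf; rw [if_neg]; exact fun h => h.1 hvi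
    rw [Finset.sum_eq_zero this, hvi, ee_self, mul_zero]
  · have h1 : ∀ j ∈ S, Cf x v i j = if j ∈ (S.erase v).erase i then tau (x v) (x i) else 0 := by
      intro j hj
      unfold Cf Dist
      simp only [Finset.mem_erase, ne_eq]
      by_cases h2 : j = i
      · rw [if_neg (fun h => h.2.2 h2.symm), if_neg (fun h => h.1 h2)]
      · by_cases h3 : j = v
        · rw [if_neg (fun h => h.2.1 h3.symm), if_neg (fun h => h.2.1 h3)]
        · rw [if_pos ⟨hvi, fun h => h3 h.symm, fun h => h2 h.symm⟩, if_pos ⟨h2, h3, hj⟩]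
    rw [Finset.sum_congr rfl h1, ← Finset.sum_filter]
    have h2 : S.filter (fun j => j ∈ (S.erase v).erase i) = (S.erase v).erase i := by
      ext j
      simp only [Finset.mem_filter, Finset.mem_erase]
      tauto
    have h3 : i ∈ S.erase v := Finset.mem_erase.2 ⟨fun h => hvi h.symm, hi⟩
    have h4 : ((S.erase v).erase i).card + 2 = S.card := by
      have := Finset.card_erase_add_one h3
      have := Finset.card_erase_add_one hv
      omega
    rw [h2, Finset.sum_const, nsmul_eq_mul, ee_of_ne x hvi, ← h4]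
    push_cast
    ring

theorem sum_Bf_le (x : ℕ → E) (S : Finset ℕ) (hx : ∀ i ∈ S, ‖x i‖ = 1)
    (hlt : ∀ i ∈ S, ∀ j ∈ S, i ≠ j → |inner ℝ (x i) (x j)| < 1)
    (hsum : ∀ v ∈ S, ∀ i ∈ S, ∀ j ∈ S, Dist v i j → tau (x v) (x i) + tau (x v) (x j) ≤ π / 2) :
    ∑ v ∈ S, ∑ i ∈ S, ∑ j ∈ S, Bf x v i j ≤ π / 2 * (((S.card : ℝ) - 2) * T2 x S) := by
  have h1 : ∑ v ∈ S, ∑ i ∈ S, ∑ j ∈ S, (Bf x v i j + Bf x i j v + Bf x j v i) ≤
      ∑ v ∈ S, ∑ i ∈ S, ∑ j ∈ S, π / 2 * (Cf x v i j + Cf x i j v + Cf x j v i) := by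
    refine Finset.sum_le_sum fun v hv => Finset.sum_le_sum fun i hi => Finset.sum_le_sum fun j hj => ?_
    by_cases hd : Dist v i j
    · have hd1 := hd.rot
      have hd2 := hd1.rot
      unfold Bf Cf
      rw [if_pos hd, if_pos hd1, if_pos hd2, if_pos hd, if_pos hd1, if_pos hd2]
      have s1 := hsum v hv i hi j hj hd
      have s2 := hsum i hi j hj v hv hd1
      have s3 := hsum j hj v hv i hi hd2
      have e1 := tau_comm (x v) (x j)
      have e2 := tau_comm (x i) (x v)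
      have e3 := tau_comm (x j) (x i)
      have h2 := theta (hx v hv) (hx i hi) (hx j hj) (hlt v hv i hi hd.1) (hlt i hi j hj hd.2.2) (hlt j hj v hv hd.2.1.symm)
        (by linarith) (by linarith) (by linarith)
      rw [e1, e2, e3]
      linarith
    · have hd1 : ¬ Dist i j v := fun h => hd h.rot.rot
      have hd2 : ¬ Dist j v i := fun h => hd h.rot
      unfold Bf Cf
      rw [if_neg hd, if_neg hd1, if_neg hd2, if_neg hd, if_neg hd1, if_neg hd2]
      simp
  have e1 : ∑ v ∈ S, ∑ i ∈ S, ∑ j ∈ S, (Bf x v i j + Bf x i j v + Bf x j v i) =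
      3 * ∑ v ∈ S, ∑ i ∈ S, ∑ j ∈ S, Bf x v i j := by
    simp only [Finset.sum_add_distrib]
    rw [rot1 S (Bf x), rot2 S (Bf x)]
    ring
  have e2 : ∑ v ∈ S, ∑ i ∈ S, ∑ j ∈ S, π / 2 * (Cf x v i j + Cf x i j v + Cf x j v i) =
      3 * (π / 2 * (((S.card : ℝ) - 2) * T2 x S)) := by
    simp only [← Finset.mul_sum, Finset.sum_add_distrib]
    rw [rot1 S (Cf x), rot2 S (Cf x), sum_Cf]
    ring
  rw [e1, e2] at h1
  linarith

/-- the inequality at one vertex -/
theorem vertex [FiniteDimensional ℝ E] {n k : ℕ} (h1 : P n (k + 1)) (h2 : P n k) (hE : finrank ℝ E = n + 1) (S : Finset ℕ)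
    (x : ℕ → E) (hx : ∀ i ∈ S, ‖x i‖ = 1) (hS : S.card = n + 1 + (k + 1))
    (hlt : ∀ i ∈ S, ∀ j ∈ S, i ≠ j → |inner ℝ (x i) (x j)| < 1) {v : ℕ} (hv : v ∈ S) (hD : DD x S v < π / 2) :
    π / 2 * ((k + 1 : ℕ) * π) ≤ ∑ i ∈ S, ∑ j ∈ S, Bf x v i j + π * DD x S v := by
  classical
  have hpi := pi_pos
  obtain ⟨S', hS'⟩ : ∃ S', S' = S.erase v := ⟨_, rfl⟩
  let y : ℕ → E := fun i => pr (x v) (x i)
  have hcard : S'.card = n + (k + 1) := by rw [hS', Finset.card_erase_of_mem hv, hS]; omega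
  have hmem : ∀ i ∈ S', i ∈ S ∧ i ≠ v := fun i hi => by
    rw [hS'] at hi; exact ⟨Finset.mem_of_mem_erase hi, Finset.ne_of_mem_erase hi⟩
  have hy1 : ∀ i ∈ S', ‖y i‖ = 1 := fun i hi => pr_norm (hx v hv) (hx i (hmem i hi).1)
    (hlt v hv i (hmem i hi).1 (hmem i hi).2.symm)
  have hy2 : ∀ i ∈ S', inner ℝ (x v) (y i) = 0 := fun i _ => pr_perp (hx v hv)
  have b1 := perp_bound h1 hE (hx v hv) S' y hy1 hy2 hcard
  have b2 : ∀ i ∈ S', ((k + 1 : ℕ) : ℝ) * π ≤ T2 y S' - 2 * DD y S' i + π := by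
    intro i hi
    have := perp_bound h2 hE (hx v hv) (S'.erase i) y (fun j hj => hy1 j (Finset.mem_of_mem_erase hj))
      (fun j hj => hy2 j (Finset.mem_of_mem_erase hj)) (by rw [Finset.card_erase_of_mem hi, hcard]; omega)
    rw [T2_erase y hi]
    push_cast
    linarith
  have hDD : DD x S v = ∑ i ∈ S', tau (x v) (x i) := by
    rw [← DD_erase_self x hv, ← hS']
    unfold DD
    exact Finset.sum_congr rfl fun i hi => ee_of_ne x (hmem i hi).2.symm
  have b3 : ∑ i ∈ S', tau (x v) (x i) * (((k + 1 : ℕ) : ℝ) * π) ≤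
      ∑ i ∈ S', tau (x v) (x i) * (T2 y S' - 2 * DD y S' i + π) :=
    Finset.sum_le_sum fun i hi => mul_le_mul_of_nonneg_left (b2 i hi) (tau_nonneg _ _)
  rw [← Finset.sum_mul, ← hDD] at b3
  have e1 : ∑ i ∈ S', tau (x v) (x i) * (T2 y S' - 2 * DD y S' i + π) =
      DD x S v * (T2 y S' + π) - 2 * ∑ i ∈ S', tau (x v) (x i) * DD y S' i := by
    rw [hDD, Finset.sum_mul, Finset.mul_sum, ← Finset.sum_sub_distrib]
    exact Finset.sum_congr rfl fun i _ => by ring
  rw [e1] at b3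
  have b4 : (π / 2 - DD x S v) * (((k + 1 : ℕ) : ℝ) * π) ≤ (π / 2 - DD x S v) * T2 y S' :=
    mul_le_mul_of_nonneg_left b1 (by linarith)
  -- symmetrisation
  have e2 : ∑ i ∈ S, ∑ j ∈ S, Bf x v i j = π / 2 * T2 y S' - 2 * ∑ i ∈ S', tau (x v) (x i) * DD y S' i := by
    have e3 : ∑ i ∈ S, ∑ j ∈ S, Bf x v i j =
        ∑ i ∈ S', ∑ j ∈ S', (π / 2 - tau (x v) (x i) - tau (x v) (x j)) * ee y i j := by
      have hz : ∀ i j, Bf x v v j = 0 ∧ Bf x v i v = 0 := by
        intro i j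
        constructor
        · unfold Bf; rw [if_neg]; exact fun h => h.1 rfl
        · unfold Bf; rw [if_neg]; exact fun h => h.2.1 rfl
      rw [hS', ← Finset.add_sum_erase S _ hv]
      rw [Finset.sum_eq_zero fun j _ => (hz 0 j).1, zero_add]
      refine Finset.sum_congr rfl fun i hi => ?_
      rw [← Finset.add_sum_erase S _ hv, (hz i 0).2, zero_add]
      refine Finset.sum_congr rfl fun j hj => ?_
      have hi' := Finset.ne_of_mem_erase hi
      have hj' := Finset.ne_of_mem_erase hj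
      by_cases hij : i = j
      · unfold Bf
        rw [if_neg (fun h => h.2.2 hij), hij, ee_self, mul_zero]
      · unfold Bf
        rw [if_pos ⟨hi'.symm, hj'.symm, hij⟩, ee_of_ne y hij]
    have e4 : ∑ i ∈ S', ∑ j ∈ S', tau (x v) (x j) * ee y i j = ∑ i ∈ S', tau (x v) (x i) * DD y S' i := by
      rw [Finset.sum_comm]
      refine Finset.sum_congr rfl fun i _ => ?_
      unfold DD
      rw [Finset.mul_sum]
      exact Finset.sum_congr rfl fun j _ => by rw [ee_comm]
    have e5 : ∑ i ∈ S', ∑ j ∈ S', tau (x v) (x i) * ee y i j = ∑ i ∈ S', tau (x v) (x i) * DD y S' i := by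
      refine Finset.sum_congr rfl fun i _ => ?_
      unfold DD
      rw [Finset.mul_sum]
    rw [e3]
    simp only [sub_mul, Finset.sum_sub_distrib]
    rw [e4, e5]
    simp only [← Finset.mul_sum]
    unfold T2
    ring
  rw [e2]
  linarith

theorem avg_step {n k : ℕ} (h0 : P (n + 1) k) (h1 : P n (k + 1)) (h2 : P n k) : P (n + 1) (k + 1) := by
  classical
  intro E _ _ _ hE S x hx hS
  have hpi := pi_pos
  by_cases hbig : ∃ v ∈ S, π / 2 ≤ DD x S v
  · obtain ⟨v, hv, hvD⟩ := hbig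
    have h3 := h0 E hE (S.erase v) x (fun i hi => hx i (Finset.mem_of_mem_erase hi))
      (by rw [Finset.card_erase_of_mem hv, hS]; omega)
    rw [T2_erase x hv]
    push_cast
    linarith
  · push Not at hbig
    have htau : ∀ v ∈ S, ∀ j ∈ S, v ≠ j → tau (x v) (x j) ≤ DD x S v := by
      intro v _ j hj hvj
      rw [← ee_of_ne x hvj]
      exact Finset.single_le_sum (f := fun j => ee x v j) (fun i _ => ee_nonneg x v i) hj
    have hlt : ∀ i ∈ S, ∀ j ∈ S, i ≠ j → |inner ℝ (x i) (x j)| < 1 := by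
      intro i hi j hj hij
      have h3 := (htau i hi j hj hij).trans_lt (hbig i hi)
      unfold tau at h3
      exact arcsin_lt_pi_div_two.1 h3
    have hsum : ∀ v ∈ S, ∀ i ∈ S, ∀ j ∈ S, Dist v i j → tau (x v) (x i) + tau (x v) (x j) ≤ π / 2 := by
      intro v hv i hi j hj hd
      have h3 : ee x v i + ee x v j ≤ DD x S v := by
        unfold DD
        have h4 : ({i, j} : Finset ℕ) ⊆ S := by
          intro m hm
          rw [Finset.mem_insert, Finset.mem_singleton] at hm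
          rcases hm with hm | hm
          · rw [hm]; exact hi
          · rw [hm]; exact hj
        have h5 := Finset.sum_le_sum_of_subset_of_nonneg (f := fun j => ee x v j) h4 (fun m _ _ => ee_nonneg x v m)
        rwa [Finset.sum_pair hd.2.2] at h5
      rw [ee_of_ne x hd.1, ee_of_ne x hd.2.1] at h3
      linarith [hbig v hv]
    have h3 := Finset.sum_le_sum fun v hv => vertex h1 h2 hE S x hx hS hlt hv (hbig v hv)
    rw [Finset.sum_const, nsmul_eq_mul, Finset.sum_add_distrib, ← Finset.mul_sum, ← T2_eq_sum_DD] at h3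
    have h4 := sum_Bf_le x S hx hlt hsum
    have hN : 0 < (S.card : ℝ) := by rw [hS]; positivity
    have h5 : (S.card : ℝ) * (π / 2 * (((k + 1 : ℕ) : ℝ) * π)) ≤ (S.card : ℝ) * (π / 2 * T2 x S) := by
      refine h3.trans ?_
      calc ∑ v ∈ S, ∑ i ∈ S, ∑ j ∈ S, Bf x v i j + π * T2 x S ≤ π / 2 * (((S.card : ℝ) - 2) * T2 x S) + π * T2 x S := by linarith
        _ = (S.card : ℝ) * (π / 2 * T2 x S) := by ring
    have h6 := le_of_mul_le_mul_left h5 hN
    exact le_of_mul_le_mul_left h6 (by linarith)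

/-- **the bound** for all dimensions and all numbers of vectors -/
theorem P_all (n k : ℕ) : P n k := by
  induction n generalizing k with
  | zero =>
    cases k with
    | zero => exact P_zero 0
    | succ k => exact P_dim_zero k
  | succ n ihn =>
    induction k with
    | zero => exact P_zero _
    | succ k ihk => exact avg_step ihk (ihn (k + 1)) (ihn k)

end Pool.Agent.H88FU
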