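import Mathlib

/-! Sums of complementary angles of finite families of unit vectors: algebra, transfer to subspaces, minimisers. -/

open Real Module

namespace Pool.Agent.H88FU

section algebra

variable {E : Type} [NormedAddCommGroup E] [InnerProductSpace ℝ E]

/-- `π/2` minus the angle of the lines spanned by two unit vectors -/
noncomputable def tau (u v : E) : ℝ := arcsin |inner ℝ u v|

noncomputable def ee (x : ℕ → E) (i j : ℕ) : ℝ := if i = j then 0 else tau (x i) (x j)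

/-- sum over the ordered pairs of different indices -/
noncomputable def T2 (x : ℕ → E) (S : Finset ℕ) : ℝ := ∑ i ∈ S, ∑ j ∈ S, ee x i j

noncomputable def DD (x : ℕ → E) (S : Finset ℕ) (v : ℕ) : ℝ := ∑ j ∈ S, ee x v j

theorem tau_nonneg (u v : E) : 0 ≤ tau u v := arcsin_nonneg.2 (abs_nonneg _)

theorem tau_le (u v : E) : tau u v ≤ π / 2 := arcsin_le_pi_div_two _

theorem tau_comm (u v : E) : tau u v = tau v u := by unfold tau; rw [real_inner_comm]

theorem tau_neg (u v : E) : tau (-u) v = tau u v := by unfold tau; rw [inner_neg_left, abs_neg]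

theorem tau_zero_iff (u v : E) : tau u v = 0 ↔ inner ℝ u v = 0 := by
  unfold tau; rw [arcsin_eq_zero_iff, abs_eq_zero]

theorem tau_pos {u v : E} (h : inner ℝ u v ≠ 0) : 0 < tau u v := arcsin_pos.2 (abs_pos.2 h)

theorem ee_self (x : ℕ → E) (i : ℕ) : ee x i i = 0 := by unfold ee; rw [if_pos rfl]

theorem ee_of_ne (x : ℕ → E) {i j : ℕ} (h : i ≠ j) : ee x i j = tau (x i) (x j) := by unfold ee; rw [if_neg h]

theorem ee_comm (x : ℕ → E) (i j : ℕ) : ee x i j = ee x j i := by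
  unfold ee; simp only [eq_comm (a := i) (b := j), tau_comm (x i) (x j)]

theorem ee_nonneg (x : ℕ → E) (i j : ℕ) : 0 ≤ ee x i j := by
  unfold ee; split_ifs
  · exact le_rfl
  · exact tau_nonneg _ _

theorem T2_nonneg (x : ℕ → E) (S : Finset ℕ) : 0 ≤ T2 x S :=
  Finset.sum_nonneg fun _ _ => Finset.sum_nonneg fun _ _ => ee_nonneg _ _ _

theorem DD_nonneg (x : ℕ → E) (S : Finset ℕ) (v : ℕ) : 0 ≤ DD x S v :=
  Finset.sum_nonneg fun _ _ => ee_nonneg _ _ _

theorem T2_eq_sum_DD (x : ℕ → E) (S : Finset ℕ) : T2 x S = ∑ v ∈ S, DD x S v := rfl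

theorem DD_congr {x y : ℕ → E} {S : Finset ℕ} {v : ℕ} (hv : x v = y v) (h : ∀ i ∈ S, x i = y i) :
    DD x S v = DD y S v := by
  unfold DD
  refine Finset.sum_congr rfl fun j hj => ?_
  unfold ee
  rw [hv, h j hj]

theorem T2_congr {x y : ℕ → E} {S : Finset ℕ} (h : ∀ i ∈ S, x i = y i) : T2 x S = T2 y S := by
  rw [T2_eq_sum_DD, T2_eq_sum_DD]
  exact Finset.sum_congr rfl fun i hi => DD_congr (h i hi) h

theorem DD_insert_self (x : ℕ → E) {S : Finset ℕ} {a : ℕ} (ha : a ∉ S) : DD x (insert a S) a = DD x S a := by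
  unfold DD; rw [Finset.sum_insert ha, ee_self, zero_add]

theorem DD_insert (x : ℕ → E) {S : Finset ℕ} {a : ℕ} (ha : a ∉ S) (v : ℕ) :
    DD x (insert a S) v = ee x v a + DD x S v := by
  unfold DD; rw [Finset.sum_insert ha]

theorem T2_insert (x : ℕ → E) {S : Finset ℕ} {a : ℕ} (ha : a ∉ S) :
    T2 x (insert a S) = T2 x S + 2 * DD x S a := by
  rw [T2_eq_sum_DD, T2_eq_sum_DD, Finset.sum_insert ha, DD_insert_self x ha]
  have : ∑ v ∈ S, DD x (insert a S) v = ∑ v ∈ S, ee x a v + ∑ v ∈ S, DD x S v := by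
    rw [← Finset.sum_add_distrib]
    exact Finset.sum_congr rfl fun v _ => by rw [DD_insert x ha, ee_comm]
  rw [this]
  have : ∑ v ∈ S, ee x a v = DD x S a := rfl
  rw [this]; ring

theorem DD_erase_self (x : ℕ → E) {S : Finset ℕ} {a : ℕ} (ha : a ∈ S) : DD x (S.erase a) a = DD x S a := by
  conv_rhs => rw [← Finset.insert_erase ha]
  rw [DD_insert_self x (Finset.notMem_erase a S)]

theorem T2_erase (x : ℕ → E) {S : Finset ℕ} {a : ℕ} (ha : a ∈ S) : T2 x S = T2 x (S.erase a) + 2 * DD x S a := by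
  conv_lhs => rw [← Finset.insert_erase ha]
  rw [T2_insert x (Finset.notMem_erase a S), DD_erase_self x ha]

theorem T2_avg (x : ℕ → E) (S : Finset ℕ) : ∑ v ∈ S, T2 x (S.erase v) = ((S.card : ℝ) - 2) * T2 x S := by
  have : ∀ v ∈ S, T2 x (S.erase v) = T2 x S - 2 * DD x S v := fun v hv => by rw [T2_erase x hv]; ring
  rw [Finset.sum_congr rfl this, Finset.sum_sub_distrib, ← Finset.mul_sum, ← T2_eq_sum_DD, Finset.sum_const,
    nsmul_eq_mul]
  ring

end algebra

/-- the bound for `n + k` unit vectors in dimension `n` -/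
def P (n k : ℕ) : Prop := ∀ (E : Type) [NormedAddCommGroup E] [InnerProductSpace ℝ E] [FiniteDimensional ℝ E],
  finrank ℝ E = n → ∀ (S : Finset ℕ) (x : ℕ → E), (∀ i ∈ S, ‖x i‖ = 1) → S.card = n + k → k * π ≤ T2 x S

theorem P_zero (n : ℕ) : P n 0 := by
  intro E _ _ _ _ S x _ _
  simpa using T2_nonneg x S

section

variable {E : Type} [NormedAddCommGroup E] [InnerProductSpace ℝ E] [FiniteDimensional ℝ E]

theorem transfer {n k : ℕ} (h : P n k) (V : Submodule ℝ E) (hV : finrank ℝ V = n) (S : Finset ℕ) (x : ℕ → E)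
    (hx : ∀ i ∈ S, ‖x i‖ = 1) (hxV : ∀ i ∈ S, x i ∈ V) (hS : S.card = n + k) : k * π ≤ T2 x S := by
  classical
  let x' : ℕ → V := fun i => if hi : x i ∈ V then ⟨x i, hi⟩ else 0
  have hc : ∀ i ∈ S, (x' i : E) = x i := by
    intro i hi
    simp only [x', dif_pos (hxV i hi)]
  have h1 := h V hV S x' (fun i hi => by
    have e : ‖x' i‖ = ‖(x' i : E)‖ := rfl
    rw [e, hc i hi]; exact hx i hi) hS
  have h2 : T2 x' S = T2 x S := by
    unfold T2
    refine Finset.sum_congr rfl fun i hi => Finset.sum_congr rfl fun j hj => ?_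
    unfold ee tau
    rw [Submodule.coe_inner, hc i hi, hc j hj]
  rw [← h2]; exact h1

theorem perp_bound {n k : ℕ} (h : P n k) (hE : finrank ℝ E = n + 1) {v : E} (hv : ‖v‖ = 1) (S : Finset ℕ) (y : ℕ → E)
    (hy : ∀ i ∈ S, ‖y i‖ = 1) (hyv : ∀ i ∈ S, inner ℝ v (y i) = 0) (hS : S.card = n + k) : k * π ≤ T2 y S := by
  have : Fact (finrank ℝ E = n + 1) := ⟨hE⟩
  have hv0 : v ≠ 0 := by intro h0; rw [h0, norm_zero] at hv; exact zero_ne_one hv
  refine transfer h (ℝ ∙ v)ᗮ (Submodule.finrank_orthogonal_span_singleton hv0) S y hy (fun i hi => ?_) hS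
  rw [Submodule.mem_orthogonal_singleton_iff_inner_right]
  exact hyv i hi

end

end Pool.Agent.H88FU
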