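import Mathlib

/-! The inequality for three lines: real form. -/

open Real

namespace Pool.Agent.H88FU

/-- area of the right spherical triangle with legs `u` and `b` -/
noncomputable def Ar (u b : ℝ) : ℝ := 2 * arctan (sin u / (1 + cos u) * (sin b / (1 + cos b)))

theorem cos_nng {a : ℝ} (h0 : 0 ≤ a) (h1 : a ≤ π / 2) : 0 ≤ cos a :=
  cos_nonneg_of_mem_Icc ⟨by linarith [pi_pos], h1⟩

theorem sin_nng {a : ℝ} (h0 : 0 ≤ a) (h1 : a ≤ π / 2) : 0 ≤ sin a :=
  sin_nonneg_of_nonneg_of_le_pi h0 (by linarith [pi_pos])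

theorem half_tan {b : ℝ} (h0 : 0 ≤ b) (h1 : b ≤ π / 2) : 2 * arctan (sin b / (1 + cos b)) = b := by
  have hpi := pi_pos
  have hc : 0 < cos (b / 2) := cos_pos_of_mem_Ioo ⟨by linarith, by linarith⟩
  have e1 : sin b = 2 * sin (b / 2) * cos (b / 2) := by
    rw [← sin_two_mul]; congr 1; ring
  have e2 : 1 + cos b = 2 * cos (b / 2) ^ 2 := by
    have : cos b = cos (2 * (b / 2)) := by congr 1; ring
    rw [this, cos_two_mul]; ring
  have e3 : sin b / (1 + cos b) = tan (b / 2) := by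
    rw [e1, e2, tan_eq_sin_div_cos]; field_simp
  rw [e3, arctan_tan (by linarith) (by linarith)]
  ring

theorem cos_Ar {u b : ℝ} (hu0 : 0 ≤ u) (hu : u ≤ π / 2) (hb0 : 0 ≤ b) (hb : b ≤ π / 2) :
    cos (Ar u b) = (cos u + cos b) / (1 + cos u * cos b) := by
  have cu := cos_nng hu0 hu
  have cb := cos_nng hb0 hb
  have eu := sin_sq_add_cos_sq u
  have eb := sin_sq_add_cos_sq b
  have h1 : 0 < 1 + cos u := by linarith
  have h2 : 0 < 1 + cos b := by linarith
  have h3 : 0 < 1 + cos u * cos b := by nlinarith [mul_nonneg cu cb]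
  unfold Ar
  rw [cos_two_mul, cos_sq_arctan]
  have e1 : (sin u / (1 + cos u) * (sin b / (1 + cos b))) ^ 2 = ((1 - cos u) * (1 - cos b)) / ((1 + cos u) * (1 + cos b)) := by
    rw [div_mul_div_comm, div_pow, mul_pow, div_eq_div_iff (by positivity) (by positivity)]
    have su : sin u ^ 2 = (1 - cos u) * (1 + cos u) := by linarith
    have sb : sin b ^ 2 = (1 - cos b) * (1 + cos b) := by linarith
    rw [su, sb]; ring
  rw [e1]
  have h4 : 0 < (1 + cos u) * (1 + cos b) + (1 - cos u) * (1 - cos b) := by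
    have : (1 + cos u) * (1 + cos b) + (1 - cos u) * (1 - cos b) = 2 * (1 + cos u * cos b) := by ring
    rw [this]; linarith
  field_simp
  ring

theorem sin_Ar {u b : ℝ} (hu0 : 0 ≤ u) (hu : u ≤ π / 2) (hb0 : 0 ≤ b) (hb : b ≤ π / 2) :
    sin (Ar u b) = sin u * sin b / (1 + cos u * cos b) := by
  have cu := cos_nng hu0 hu
  have cb := cos_nng hb0 hb
  have eu := sin_sq_add_cos_sq u
  have eb := sin_sq_add_cos_sq b
  have h1 : 0 < 1 + cos u := by linarith
  have h2 : 0 < 1 + cos b := by linarith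
  have h3 : 0 < 1 + cos u * cos b := by nlinarith [mul_nonneg cu cb]
  unfold Ar
  have key : ∀ x : ℝ, sin (2 * arctan x) = 2 * x / (1 + x ^ 2) := by
    intro x
    have h5 : 0 < 1 + x ^ 2 := by positivity
    have h6 : √(1 + x ^ 2) ≠ 0 := (sqrt_pos.2 h5).ne'
    rw [sin_two_mul, sin_arctan, cos_arctan]
    have h7 : √(1 + x ^ 2) * √(1 + x ^ 2) = 1 + x ^ 2 := mul_self_sqrt h5.le
    rw [mul_assoc, div_mul_div_comm, h7, mul_one, mul_div_assoc]
  rw [key]
  have e1 : (sin u / (1 + cos u) * (sin b / (1 + cos b))) ^ 2 = ((1 - cos u) * (1 - cos b)) / ((1 + cos u) * (1 + cos b)) := by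
    rw [div_mul_div_comm, div_pow, mul_pow, div_eq_div_iff (by positivity) (by positivity)]
    have su : sin u ^ 2 = (1 - cos u) * (1 + cos u) := by linarith
    have sb : sin b ^ 2 = (1 - cos b) * (1 + cos b) := by linarith
    rw [su, sb]; ring
  rw [e1]
  have h4 : 0 < (1 + cos u) * (1 + cos b) + (1 - cos u) * (1 - cos b) := by
    have : (1 + cos u) * (1 + cos b) + (1 - cos u) * (1 - cos b) = 2 * (1 + cos u * cos b) := by ring
    rw [this]; linarith
  field_simp
  ring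

theorem Ar_nonneg {u b : ℝ} (hu0 : 0 ≤ u) (hu : u ≤ π / 2) (hb0 : 0 ≤ b) (hb : b ≤ π / 2) : 0 ≤ Ar u b := by
  have cu := cos_nng hu0 hu
  have cb := cos_nng hb0 hb
  have su := sin_nng hu0 hu
  have sb := sin_nng hb0 hb
  unfold Ar
  have : 0 ≤ arctan (sin u / (1 + cos u) * (sin b / (1 + cos b))) := arctan_nonneg.2 (by positivity)
  linarith

/-- the area bound -/
theorem Ar_le {u b : ℝ} (hu0 : 0 ≤ u) (hu : u ≤ π / 2) (hb0 : 0 ≤ b) (hb : b ≤ π / 2) :
    Ar u b ≤ 2 / π * (u * b) := by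
  have hpi := pi_pos
  have cb := cos_nng hb0 hb
  have sb := sin_nng hb0 hb
  obtain ⟨T, hT⟩ : ∃ T, T = sin b / (1 + cos b) := ⟨_, rfl⟩
  have hT0 : 0 ≤ T := by rw [hT]; positivity
  have hT1 : T ≤ 1 := by
    rw [hT, div_le_one (by linarith)]
    linarith [sin_le_one b]
  have hTb : 2 * arctan T = b := by rw [hT]; exact half_tan hb0 hb
  let g : ℝ → ℝ := fun u => 2 * arctan (sin u / (1 + cos u) * T)
  have hder : ∀ u ∈ Set.Icc 0 (π / 2), HasDerivAt g (2 * T / ((1 + T ^ 2) + (1 - T ^ 2) * cos u)) u := by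
    intro u hu
    have cu := cos_nng hu.1 hu.2
    have h1 : 1 + cos u ≠ 0 := by linarith
    have e1 : HasDerivAt (fun u => sin u / (1 + cos u)) ((cos u * (1 + cos u) - sin u * (-sin u)) / (1 + cos u) ^ 2) u :=
      (hasDerivAt_sin u).div ((hasDerivAt_cos u).const_add 1) h1
    have e2 := ((e1.mul_const T).arctan).const_mul 2
    refine e2.congr_deriv ?_
    have eu := sin_sq_add_cos_sq u
    have e3 : cos u * (1 + cos u) - sin u * (-sin u) = 1 + cos u := by nlinarith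
    rw [e3]
    have e4 : 1 + (sin u / (1 + cos u) * T) ^ 2 = ((1 + T ^ 2) + (1 - T ^ 2) * cos u) / (1 + cos u) := by
      have su : sin u ^ 2 = (1 - cos u) * (1 + cos u) := by linarith
      rw [mul_pow, div_pow, su]
      field_simp
      ring
    rw [e4]
    have h2 : (1 + T ^ 2) + (1 - T ^ 2) * cos u ≠ 0 := by
      have : 0 ≤ (1 - T ^ 2) * cos u := mul_nonneg (by nlinarith) cu
      positivity
    field_simp
  have hconv : ConvexOn ℝ (Set.Icc 0 (π / 2)) g := by
    refine MonotoneOn.convexOn_of_deriv (convex_Icc _ _) (fun u hu => (hder u hu).continuousAt.continuousWithinAt) ?_ ?_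
    · rw [interior_Icc]
      exact fun u hu => (hder u (Set.Ioo_subset_Icc_self hu)).differentiableAt.differentiableWithinAt
    · rw [interior_Icc]
      intro u hu v hv huv
      rw [(hder u (Set.Ioo_subset_Icc_self hu)).deriv, (hder v (Set.Ioo_subset_Icc_self hv)).deriv]
      have cv := cos_nng hv.1.le hv.2.le
      have hcc : cos v ≤ cos u := cos_le_cos_of_nonneg_of_le_pi hu.1.le (by linarith [hv.2]) huv
      have hT2 : 0 ≤ 1 - T ^ 2 := by nlinarith
      have h3 : 0 ≤ (1 - T ^ 2) * cos v := mul_nonneg hT2 cv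
      have h4 : (1 - T ^ 2) * cos v ≤ (1 - T ^ 2) * cos u := mul_le_mul_of_nonneg_left hcc hT2
      exact div_le_div_of_nonneg_left (by positivity) (by positivity) (by linarith)
  have hle : 2 / π * u ≤ 1 := by
    rw [div_mul_eq_mul_div, div_le_one hpi]; linarith
  have ha0 : 0 ≤ 1 - 2 / π * u := by linarith
  have hb0 : 0 ≤ 2 / π * u := by positivity
  have hm0 : (0 : ℝ) ∈ Set.Icc 0 (π / 2) := ⟨le_rfl, by linarith⟩
  have hm1 : π / 2 ∈ Set.Icc 0 (π / 2) := ⟨by linarith, le_rfl⟩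
  have h5 := hconv.2 hm0 hm1 ha0 hb0 (by ring)
  have e5 : (1 - 2 / π * u) • (0 : ℝ) + (2 / π * u) • (π / 2) = u := by
    simp only [smul_eq_mul]; field_simp; ring
  have e6 : g 0 = 0 := by simp [g]
  have e7 : g (π / 2) = b := by
    simp only [g, sin_pi_div_two, cos_pi_div_two, add_zero, div_one, one_mul]
    exact hTb
  rw [e5, e6, e7] at h5
  simp only [smul_eq_mul, mul_zero, zero_add] at h5
  have e8 : Ar u b = g u := by simp only [Ar, g, hT]
  rw [e8]
  refine h5.trans (le_of_eq ?_)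
  ring

/-- the algebraic identity -/
theorem cos_id {P c s cb sb cg sg : ℝ} (h1 : c ^ 2 + s ^ 2 = 1) (h2 : cb ^ 2 + sb ^ 2 = 1) (h3 : cg ^ 2 + sg ^ 2 = 1)
    (hP : P ^ 2 = 1 - s ^ 2 - sb ^ 2 - sg ^ 2 - 2 * s * sb * sg) :
    (P + c * cb ^ 2) * (P + c * cg ^ 2) - (sb * sg + s * sb ^ 2) * (sb * sg + s * sg ^ 2) =
      (c + P) ^ 2 * (P * c + s ^ 2 + sb * sg * s) := by
  have hcb : cb ^ 2 = 1 - sb ^ 2 := by linarith
  have hcg : cg ^ 2 = 1 - sg ^ 2 := by linarith
  rw [hcb, hcg]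
  linear_combination (-((P + c) * c + sb * sg * s)) * hP +
    ((P + c) * c + sb * sg * s + (sb * sg) ^ 2 - (P + c) ^ 2) * h1

end Pool.Agent.H88FU
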