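import Pool.Agent.H88FU.Theta

/-! The inequality for three lines: real form, continued. -/

open Real

namespace Pool.Agent.H88FU

/-- Gram determinant of a triple of negative type -/
noncomputable def Dt (a b c : ℝ) : ℝ := 1 - sin a ^ 2 - sin b ^ 2 - sin c ^ 2 - 2 * sin a * sin b * sin c

/-- the deviation of the angle at a vertex, negative type -/
noncomputable def wn (a b c : ℝ) : ℝ := arcsin ((sin a + sin b * sin c) / (cos b * cos c))

theorem Dt_rot (a b c : ℝ) : Dt a b c = Dt b c a := by unfold Dt; ring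

theorem Dt_swap (a b c : ℝ) : Dt a b c = Dt a c b := by unfold Dt; ring

theorem wn_swap (a b c : ℝ) : wn a b c = wn a c b := by unfold wn; rw [mul_comm (sin b), mul_comm (cos b)]

theorem cos_pp {a : ℝ} (h0 : 0 ≤ a) (h1 : a < π / 2) : 0 < cos a :=
  cos_pos_of_mem_Ioo ⟨by linarith [pi_pos], h1⟩

section

variable {a b c : ℝ}

theorem wn_arg (hb0 : 0 ≤ b) (hb : b < π / 2) (hc0 : 0 ≤ c) (hc : c < π / 2) (ha0 : 0 ≤ a) (ha : a < π / 2)
    (hD : 0 ≤ Dt a b c) : 0 ≤ (sin a + sin b * sin c) / (cos b * cos c) ∧ (sin a + sin b * sin c) / (cos b * cos c) ≤ 1 := by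
  have sa := sin_nng ha0 ha.le
  have sb := sin_nng hb0 hb.le
  have sc := sin_nng hc0 hc.le
  have cb := cos_pp hb0 hb
  have cc := cos_pp hc0 hc
  have hn : 0 ≤ sin a + sin b * sin c := by positivity
  have hd : 0 < cos b * cos c := mul_pos cb cc
  refine ⟨div_nonneg hn hd.le, ?_⟩
  rw [div_le_one hd]
  apply le_of_sq_le_sq _ hd.le
  have eb : cos b ^ 2 = 1 - sin b ^ 2 := by have := sin_sq_add_cos_sq b; linarith
  have ec : cos c ^ 2 = 1 - sin c ^ 2 := by have := sin_sq_add_cos_sq c; linarith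
  rw [mul_pow, eb, ec]
  unfold Dt at hD
  nlinarith

theorem sin_wn (hb0 : 0 ≤ b) (hb : b < π / 2) (hc0 : 0 ≤ c) (hc : c < π / 2) (ha0 : 0 ≤ a) (ha : a < π / 2)
    (hD : 0 ≤ Dt a b c) : sin (wn a b c) = (sin a + sin b * sin c) / (cos b * cos c) := by
  obtain ⟨h1, h2⟩ := wn_arg hb0 hb hc0 hc ha0 ha hD
  unfold wn
  rw [sin_arcsin (by linarith) h2]

theorem wn_nonneg (hb0 : 0 ≤ b) (hb : b < π / 2) (hc0 : 0 ≤ c) (hc : c < π / 2) (ha0 : 0 ≤ a) (ha : a < π / 2)
    (hD : 0 ≤ Dt a b c) : 0 ≤ wn a b c :=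
  arcsin_nonneg.2 (wn_arg hb0 hb hc0 hc ha0 ha hD).1

theorem wn_le (a b c : ℝ) : wn a b c ≤ π / 2 := arcsin_le_pi_div_two _

theorem cos_wn (hb0 : 0 ≤ b) (hb : b < π / 2) (hc0 : 0 ≤ c) (hc : c < π / 2) (_ha0 : 0 ≤ a) (_ha : a < π / 2)
    (hD : 0 ≤ Dt a b c) : cos (wn a b c) = √(Dt a b c) / (cos b * cos c) := by
  have cb := cos_pp hb0 hb
  have cc := cos_pp hc0 hc
  have hd : 0 < cos b * cos c := mul_pos cb cc
  unfold wn
  rw [cos_arcsin]
  have eb : cos b ^ 2 = 1 - sin b ^ 2 := by have := sin_sq_add_cos_sq b; linarith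
  have ec : cos c ^ 2 = 1 - sin c ^ 2 := by have := sin_sq_add_cos_sq c; linarith
  have e : 1 - ((sin a + sin b * sin c) / (cos b * cos c)) ^ 2 = Dt a b c / (cos b * cos c) ^ 2 := by
    rw [div_pow, eq_div_iff (pow_pos hd 2).ne', sub_mul, one_mul, div_mul_cancel₀ _ (pow_pos hd 2).ne', mul_pow, eb, ec]
    unfold Dt
    ring
  rw [e, sqrt_div hD, sqrt_sq hd.le]

/-- the exact formula -/
theorem wn_sub (ha0 : 0 ≤ a) (ha : a < π / 2) (hb0 : 0 ≤ b) (hb : b < π / 2) (hc0 : 0 ≤ c) (hc : c < π / 2)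
    (hD : 0 ≤ Dt a b c) : wn a b c - a = Ar (wn c a b) b + Ar (wn b a c) c := by
  have hpi := pi_pos
  have ca := cos_pp ha0 ha
  have cb := cos_pp hb0 hb
  have cc := cos_pp hc0 hc
  have sa := sin_nng ha0 ha.le
  have sb := sin_nng hb0 hb.le
  have sc := sin_nng hc0 hc.le
  have hDc : 0 ≤ Dt c a b := by rw [Dt_rot]; exact hD
  have hDb : 0 ≤ Dt b a c := by rw [Dt_swap, ← Dt_rot]; exact hD
  have eDc : Dt c a b = Dt a b c := Dt_rot c a b
  have eDb : Dt b a c = Dt a b c := by rw [Dt_swap, ← Dt_rot]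
  obtain ⟨P, hP⟩ : ∃ P, P = √(Dt a b c) := ⟨_, rfl⟩
  have hP0 : 0 ≤ P := by rw [hP]; exact sqrt_nonneg _
  have hP2 : P ^ 2 = Dt a b c := by rw [hP]; exact sq_sqrt hD
  have wa0 := wn_nonneg hb0 hb hc0 hc ha0 ha hD
  have wb0 := wn_nonneg ha0 ha hc0 hc hb0 hb hDb
  have wc0 := wn_nonneg ha0 ha hb0 hb hc0 hc hDc
  have wa1 := wn_le a b c
  have wb1 := wn_le b a c
  have wc1 := wn_le c a b
  have s1 := sin_wn hb0 hb hc0 hc ha0 ha hD
  have s2 := sin_wn ha0 ha hc0 hc hb0 hb hDb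
  have s3 := sin_wn ha0 ha hb0 hb hc0 hc hDc
  have c1 := cos_wn hb0 hb hc0 hc ha0 ha hD
  have c2 := cos_wn ha0 ha hc0 hc hb0 hb hDb
  have c3 := cos_wn ha0 ha hb0 hb hc0 hc hDc
  rw [← hP] at c1
  rw [eDb, ← hP] at c2
  rw [eDc, ← hP] at c3
  have E1 := cos_Ar wc0 wc1 hb0 hb.le
  have E2 := cos_Ar wb0 wb1 hc0 hc.le
  have F1 := sin_Ar wc0 wc1 hb0 hb.le
  have F2 := sin_Ar wb0 wb1 hc0 hc.le
  rw [c3] at E1
  rw [c2] at E2
  rw [c3, s3] at F1
  rw [c2, s2] at F2
  have hQ : 0 < cos a + P := by linarith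
  have E1' : cos (Ar (wn c a b) b) = (P + cos a * cos b ^ 2) / (cos b * (cos a + P)) := by
    rw [E1, div_eq_div_iff (by positivity) (by positivity)]
    field_simp
  have E2' : cos (Ar (wn b a c) c) = (P + cos a * cos c ^ 2) / (cos c * (cos a + P)) := by
    rw [E2, div_eq_div_iff (by positivity) (by positivity)]
    field_simp
  have F1' : sin (Ar (wn c a b) b) = (sin b * sin c + sin a * sin b ^ 2) / (cos b * (cos a + P)) := by
    rw [F1, div_eq_div_iff (by positivity) (by positivity)]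
    field_simp
  have F2' : sin (Ar (wn b a c) c) = (sin b * sin c + sin a * sin c ^ 2) / (cos c * (cos a + P)) := by
    rw [F2, div_eq_div_iff (by positivity) (by positivity)]
    field_simp
  have key : cos (wn a b c - a) = cos (Ar (wn c a b) b + Ar (wn b a c) c) := by
    rw [cos_sub, cos_add, E1', E2', F1', F2', c1, s1]
    have hid := cos_id (P := P) (c := cos a) (s := sin a) (cb := cos b) (sb := sin b) (cg := cos c) (sg := sin c)
      (by have := sin_sq_add_cos_sq a; linarith) (by have := sin_sq_add_cos_sq b; linarith)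
      (by have := sin_sq_add_cos_sq c; linarith) (by rw [hP2]; unfold Dt; ring)
    have e1 : P / (cos b * cos c) * cos a + (sin a + sin b * sin c) / (cos b * cos c) * sin a =
        ((cos a + P) ^ 2 * (P * cos a + sin a ^ 2 + sin b * sin c * sin a)) / (cos b * cos c * (cos a + P) ^ 2) := by
      field_simp
      ring
    have e2 : (P + cos a * cos b ^ 2) / (cos b * (cos a + P)) * ((P + cos a * cos c ^ 2) / (cos c * (cos a + P))) -
        (sin b * sin c + sin a * sin b ^ 2) / (cos b * (cos a + P)) * ((sin b * sin c + sin a * sin c ^ 2) / (cos c * (cos a + P))) =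
        ((P + cos a * cos b ^ 2) * (P + cos a * cos c ^ 2) - (sin b * sin c + sin a * sin b ^ 2) * (sin b * sin c + sin a * sin c ^ 2)) /
          (cos b * cos c * (cos a + P) ^ 2) := by
      field_simp
    rw [e1, e2, hid]
  have A1 := Ar_nonneg wc0 wc1 hb0 hb.le
  have A2 := Ar_nonneg wb0 wb1 hc0 hc.le
  have B1 : Ar (wn c a b) b ≤ π / 2 := by
    have := Ar_le wc0 wc1 hb0 hb.le
    have h1 : 2 / π * (wn c a b * b) ≤ 2 / π * (π / 2 * (π / 2)) := by
      apply mul_le_mul_of_nonneg_left _ (by positivity)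
      exact mul_le_mul wc1 hb.le hb0 (by linarith)
    have h2 : 2 / π * (π / 2 * (π / 2)) = π / 2 := by field_simp
    linarith
  have B2 : Ar (wn b a c) c ≤ π / 2 := by
    have := Ar_le wb0 wb1 hc0 hc.le
    have h1 : 2 / π * (wn b a c * c) ≤ 2 / π * (π / 2 * (π / 2)) := by
      apply mul_le_mul_of_nonneg_left _ (by positivity)
      exact mul_le_mul wb1 hc.le hc0 (by linarith)
    have h2 : 2 / π * (π / 2 * (π / 2)) = π / 2 := by field_simp
    linarith
  have hge : a ≤ wn a b c := by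
    unfold wn
    rw [le_arcsin_iff_sin_le' ⟨by linarith, ha.le⟩]
    rw [le_div_iff₀ (mul_pos cb cc)]
    have h1 : sin a * (cos b * cos c) ≤ sin a * 1 :=
      mul_le_mul_of_nonneg_left (mul_le_one₀ (cos_le_one b) cc.le (cos_le_one c)) sa
    have h2 : 0 ≤ sin b * sin c := mul_nonneg sb sc
    linarith
  exact injOn_cos ⟨by linarith, by linarith⟩ ⟨by linarith, by linarith⟩ key

/-- one third of the inequality -/
theorem wn_bound (ha0 : 0 ≤ a) (ha : a < π / 2) (hb0 : 0 ≤ b) (hb : b < π / 2) (hc0 : 0 ≤ c) (hc : c < π / 2)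
    (hD : 0 ≤ Dt a b c) : wn a b c - a ≤ 2 / π * (wn c a b * b + wn b a c * c) := by
  have hDc : 0 ≤ Dt c a b := by rw [Dt_rot]; exact hD
  have hDb : 0 ≤ Dt b a c := by rw [Dt_swap, ← Dt_rot]; exact hD
  have wb0 := wn_nonneg ha0 ha hc0 hc hb0 hb hDb
  have wc0 := wn_nonneg ha0 ha hb0 hb hc0 hc hDc
  rw [wn_sub ha0 ha hb0 hb hc0 hc hD, mul_add]
  exact add_le_add (Ar_le wc0 (wn_le _ _ _) hb0 hb.le) (Ar_le wb0 (wn_le _ _ _) hc0 hc.le)

/-- the inequality for triples of negative type -/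
theorem theta_neg (ha0 : 0 ≤ a) (ha : a < π / 2) (hb0 : 0 ≤ b) (hb : b < π / 2) (hc0 : 0 ≤ c) (hc : c < π / 2)
    (hD : 0 ≤ Dt a b c) : (π / 2 - b - c) * wn a b c + (π / 2 - c - a) * wn b c a + (π / 2 - a - b) * wn c a b ≤
      π / 2 * (a + b + c) := by
  have hpi := pi_pos
  have hDc : 0 ≤ Dt c a b := by rw [Dt_rot]; exact hD
  have hDb : 0 ≤ Dt b c a := by rw [← Dt_rot]; exact hD
  have h1 := wn_bound ha0 ha hb0 hb hc0 hc hD
  have h2 := wn_bound hb0 hb hc0 hc ha0 ha hDb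
  have h3 := wn_bound hc0 hc ha0 ha hb0 hb hDc
  rw [wn_swap b a c] at h1
  rw [wn_swap c b a] at h2
  rw [wn_swap a c b] at h3
  have h4 : (wn a b c - a) + (wn b c a - b) + (wn c a b - c) ≤
      2 / π * ((b + c) * wn a b c + (c + a) * wn b c a + (a + b) * wn c a b) := by
    calc (wn a b c - a) + (wn b c a - b) + (wn c a b - c) ≤ 2 / π * (wn c a b * b + wn b c a * c) +
        2 / π * (wn a b c * c + wn c a b * a) + 2 / π * (wn b c a * a + wn a b c * b) := by linarith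
      _ = _ := by ring
  have h5 := mul_le_mul_of_nonneg_left h4 (show 0 ≤ π / 2 by linarith)
  have h6 : π / 2 * (2 / π * ((b + c) * wn a b c + (c + a) * wn b c a + (a + b) * wn c a b)) =
      (b + c) * wn a b c + (c + a) * wn b c a + (a + b) * wn c a b := by field_simp
  rw [h6] at h5
  linarith

end

end Pool.Agent.H88FU
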