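import Pool.Agent.H88FU.Theta2

/-! The inequality for three lines: positive type, and vector form. -/

open Real

namespace Pool.Agent.H88FU

/-- the deviation of the angle at a vertex, positive type -/
noncomputable def wp (a b c : ℝ) : ℝ := arcsin (|sin a - sin b * sin c| / (cos b * cos c))

theorem wp_swap (a b c : ℝ) : wp a b c = wp a c b := by unfold wp; rw [mul_comm (sin b), mul_comm (cos b)]

section

variable {a b c : ℝ}

theorem wp_nonneg (hb0 : 0 ≤ b) (hb : b < π / 2) (hc0 : 0 ≤ c) (hc : c < π / 2) : 0 ≤ wp a b c :=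
  arcsin_nonneg.2 (div_nonneg (abs_nonneg _) (mul_pos (cos_pp hb0 hb) (cos_pp hc0 hc)).le)

theorem wp_le_self (ha0 : 0 ≤ a) (ha : a < π / 2) (hb0 : 0 ≤ b) (hb : b < π / 2) (hc0 : 0 ≤ c) (hc : c < π / 2)
    (h1 : sin b * sin c ≤ sin a) (h2 : sin a * sin c ≤ sin b) (h3 : sin a * sin b ≤ sin c) : wp a b c ≤ a := by
  have hpi := pi_pos
  have sa := sin_nng ha0 ha.le
  have sb := sin_nng hb0 hb.le
  have sc := sin_nng hc0 hc.le
  have cb := cos_pp hb0 hb
  have cc := cos_pp hc0 hc
  have eb : cos b ^ 2 = 1 - sin b ^ 2 := by have := sin_sq_add_cos_sq b; linarith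
  have ec : cos c ^ 2 = 1 - sin c ^ 2 := by have := sin_sq_add_cos_sq c; linarith
  unfold wp
  rw [arcsin_le_iff_le_sin' ⟨by linarith, ha⟩, abs_of_nonneg (by linarith), div_le_iff₀ (mul_pos cb cc)]
  rcases le_total (cos b) (cos c) with h | h
  · have e1 : cos b ^ 2 ≤ cos b * cos c := by nlinarith
    have e2 : 1 - cos b * cos c ≤ sin b ^ 2 := by linarith
    have e3 : sin a * (1 - cos b * cos c) ≤ sin a * sin b ^ 2 := mul_le_mul_of_nonneg_left e2 sa
    have e4 : sin a * sin b * sin b ≤ sin c * sin b := mul_le_mul_of_nonneg_right h3 sb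
    nlinarith
  · have e1 : cos c ^ 2 ≤ cos b * cos c := by nlinarith
    have e2 : 1 - cos b * cos c ≤ sin c ^ 2 := by linarith
    have e3 : sin a * (1 - cos b * cos c) ≤ sin a * sin c ^ 2 := mul_le_mul_of_nonneg_left e2 sa
    have e4 : sin a * sin c * sin c ≤ sin b * sin c := mul_le_mul_of_nonneg_right h2 sc
    nlinarith

/-- comparison with the case of an orthogonal pair -/
theorem wp_le_wn (ha0 : 0 ≤ a) (ha : a < π / 2) (hb0 : 0 ≤ b) (hb : b < π / 2) (hc0 : 0 ≤ c) (hc : c < π / 2)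
    (h3 : sin c < sin a * sin b) : wp a b c ≤ wn a b 0 := by
  have sa := sin_nng ha0 ha.le
  have sb := sin_nng hb0 hb.le
  have sc := sin_nng hc0 hc.le
  have cb := cos_pp hb0 hb
  have cc := cos_pp hc0 hc
  have sa1 := sin_le_one a
  have sb1 := sin_le_one b
  have cc1 := cos_le_one c
  have ec : cos c ^ 2 = 1 - sin c ^ 2 := by have := sin_sq_add_cos_sq c; linarith
  unfold wp wn
  rw [sin_zero, cos_zero, mul_zero, mul_one, add_zero]
  have h4 : sin a * sin b ≤ sin a := mul_le_of_le_one_right sa sb1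
  have h5 : sin a * sin b ≤ sin b := mul_le_of_le_one_left sb sa1
  have h6 : sin b * sin c ≤ sin c := mul_le_of_le_one_left sc sb1
  have h7 : sin a * sin c ≤ sin c := mul_le_of_le_one_left sc sa1
  apply arcsin_le_arcsin
  rw [abs_of_nonneg (by linarith), div_le_div_iff₀ (mul_pos cb cc) cb]
  have e1 : 1 - cos c ≤ sin c ^ 2 := by nlinarith
  have e2 : sin a * (1 - cos c) ≤ sin a * sin c ^ 2 := mul_le_mul_of_nonneg_left e1 sa
  have e3 : sin a * sin c * sin c ≤ sin b * sin c := mul_le_mul_of_nonneg_right (by linarith) sc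
  have e4 : sin a - sin b * sin c ≤ sin a * cos c := by nlinarith
  calc (sin a - sin b * sin c) * cos b ≤ sin a * cos c * cos b := mul_le_mul_of_nonneg_right e4 cb.le
    _ = sin a * (cos b * cos c) := by ring

theorem wp_le_wn' (ha0 : 0 ≤ a) (ha : a < π / 2) (hb0 : 0 ≤ b) (hb : b < π / 2) (hc0 : 0 ≤ c) (hc : c < π / 2)
    (h3 : sin c < sin a * sin b) : wp c a b ≤ wn 0 a b := by
  have sc := sin_nng hc0 hc.le
  have ca := cos_pp ha0 ha
  have cb := cos_pp hb0 hb
  unfold wp wn
  rw [sin_zero, zero_add]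
  apply arcsin_le_arcsin
  rw [abs_of_nonpos (by linarith)]
  apply div_le_div_of_nonneg_right _ (mul_pos ca cb).le
  linarith

theorem theta_path (ha0 : 0 ≤ a) (ha : a < π / 2) (hb0 : 0 ≤ b) (hb : b < π / 2) (hc0 : 0 ≤ c) (hc : c < π / 2)
    (hab : a + b ≤ π / 2) (_hbc : b + c ≤ π / 2) (_hca : c + a ≤ π / 2) (h3 : sin c < sin a * sin b) :
    (π / 2 - b - c) * wp a b c + (π / 2 - c - a) * wp b c a + (π / 2 - a - b) * wp c a b ≤ π / 2 * (a + b + c) := by
  have hpi := pi_pos
  have sb := sin_nng hb0 hb.le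
  have hD : 0 ≤ Dt a b 0 := by
    have h1 : sin b ≤ cos a := by
      rw [← sin_pi_div_two_sub]
      exact sin_le_sin_of_le_of_le_pi_div_two (by linarith) (by linarith) (by linarith)
    have h2 : sin b ^ 2 ≤ cos a ^ 2 := pow_le_pow_left₀ sb h1 2
    have h4 := sin_sq_add_cos_sq a
    unfold Dt
    rw [sin_zero]
    nlinarith
  have h1 := theta_neg ha0 ha hb0 hb le_rfl (by linarith) hD
  have h2 := wp_le_wn ha0 ha hb0 hb hc0 hc h3
  have h4 := wp_le_wn hb0 hb ha0 ha hc0 hc (by rw [mul_comm]; exact h3)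
  have h5 := wp_le_wn' ha0 ha hb0 hb hc0 hc h3
  rw [wp_swap b a c, wn_swap b a 0] at h4
  have n1 := wp_nonneg (a := a) hb0 hb hc0 hc
  have n2 := wp_nonneg (a := b) hc0 hc ha0 ha
  have n3 := wp_nonneg (a := c) ha0 ha hb0 hb
  have m1 : (π / 2 - b - c) * wp a b c ≤ (π / 2 - b - 0) * wn a b 0 :=
    mul_le_mul (by linarith) h2 n1 (by linarith)
  have m2 : (π / 2 - c - a) * wp b c a ≤ (π / 2 - 0 - a) * wn b 0 a :=
    mul_le_mul (by linarith) h4 n2 (by linarith)
  have m3 : (π / 2 - a - b) * wp c a b ≤ (π / 2 - a - b) * wn 0 a b :=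
    mul_le_mul_of_nonneg_left h5 (by linarith)
  have m4 : π / 2 * (a + b + 0) ≤ π / 2 * (a + b + c) := mul_le_mul_of_nonneg_left (by linarith) (by linarith)
  linarith

/-- the inequality for triples of positive type -/
theorem theta_pos (ha0 : 0 ≤ a) (ha : a < π / 2) (hb0 : 0 ≤ b) (hb : b < π / 2) (hc0 : 0 ≤ c) (hc : c < π / 2)
    (hab : a + b ≤ π / 2) (hbc : b + c ≤ π / 2) (hca : c + a ≤ π / 2) :
    (π / 2 - b - c) * wp a b c + (π / 2 - c - a) * wp b c a + (π / 2 - a - b) * wp c a b ≤ π / 2 * (a + b + c) := by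
  have hpi := pi_pos
  by_cases h3 : sin a * sin b ≤ sin c
  · by_cases h1 : sin b * sin c ≤ sin a
    · by_cases h2 : sin c * sin a ≤ sin b
      · have h2' : sin a * sin c ≤ sin b := by rw [mul_comm]; exact h2
        have h1' : sin c * sin b ≤ sin a := by rw [mul_comm]; exact h1
        have h3' : sin b * sin a ≤ sin c := by rw [mul_comm]; exact h3
        have k1 := wp_le_self ha0 ha hb0 hb hc0 hc h1 h2' h3
        have k2 := wp_le_self hb0 hb hc0 hc ha0 ha h2 h3' h1
        have k3 := wp_le_self hc0 hc ha0 ha hb0 hb h3 h1' h2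
        have n1 := wp_nonneg (a := a) hb0 hb hc0 hc
        have n2 := wp_nonneg (a := b) hc0 hc ha0 ha
        have n3 := wp_nonneg (a := c) ha0 ha hb0 hb
        have m1 : (π / 2 - b - c) * wp a b c ≤ π / 2 * a := mul_le_mul (by linarith) k1 n1 (by linarith)
        have m2 : (π / 2 - c - a) * wp b c a ≤ π / 2 * b := mul_le_mul (by linarith) k2 n2 (by linarith)
        have m3 : (π / 2 - a - b) * wp c a b ≤ π / 2 * c := mul_le_mul (by linarith) k3 n3 (by linarith)
        linarith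
      · push Not at h2
        have := theta_path hc0 hc ha0 ha hb0 hb hca hab hbc h2
        linarith
    · push Not at h1
      have := theta_path hb0 hb hc0 hc ha0 ha hbc hca hab h1
      linarith
  · push Not at h3
    exact theta_path ha0 ha hb0 hb hc0 hc hab hbc hca h3

end

end Pool.Agent.H88FU
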