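import Pool.Agent.H88FU.Base
import Pool.Agent.H88FU.Theta3

/-! The inequality for three lines: vector form. -/

open Real

namespace Pool.Agent.H88FU

variable {E : Type} [NormedAddCommGroup E] [InnerProductSpace ℝ E]

/-- normalised projection of `u` on the orthogonal complement of `v` -/
noncomputable def pr (v u : E) : E := (√(1 - (inner ℝ v u) ^ 2))⁻¹ • (u - (inner ℝ v u) • v)

theorem pr_perp {v u : E} (hv : ‖v‖ = 1) : inner ℝ v (pr v u) = 0 := by
  unfold pr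
  rw [inner_smul_right, inner_sub_right, inner_smul_right, real_inner_self_eq_norm_sq, hv]
  ring

theorem pos_of_lt {t : ℝ} (h : |t| < 1) : 0 < 1 - t ^ 2 := by
  have := (sq_lt_one_iff_abs_lt_one _).2 h
  linarith

theorem pr_norm {v u : E} (hv : ‖v‖ = 1) (hu : ‖u‖ = 1) (h : |inner ℝ v u| < 1) : ‖pr v u‖ = 1 := by
  have h1 := pos_of_lt h
  have h2 : ‖u - (inner ℝ v u) • v‖ ^ 2 = 1 - (inner ℝ v u) ^ 2 := by
    rw [norm_sub_sq_real, norm_smul, hu, hv, inner_smul_right, real_inner_comm u v, Real.norm_eq_abs, mul_one, sq_abs]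
    ring
  unfold pr
  rw [norm_smul, norm_inv, Real.norm_eq_abs, abs_of_nonneg (sqrt_nonneg _), ← h2, sqrt_sq (norm_nonneg _)]
  apply inv_mul_cancel₀
  intro h3
  rw [h3] at h2
  norm_num at h2
  linarith

theorem cos_tau {v u : E} : cos (tau v u) = √(1 - (inner ℝ v u) ^ 2) := by
  unfold tau; rw [cos_arcsin, sq_abs]

theorem sin_tau {v u : E} (h : |inner ℝ v u| < 1) : sin (tau v u) = |inner ℝ v u| := by
  unfold tau; rw [sin_arcsin (by linarith [abs_nonneg (inner ℝ v u)]) h.le]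

theorem tau_lt {v u : E} (h : |inner ℝ v u| < 1) : tau v u < π / 2 := arcsin_lt_pi_div_two.2 h

theorem inner_pr {a b c : E} (ha : ‖a‖ = 1) :
    inner ℝ (pr a b) (pr a c) = (inner ℝ b c - inner ℝ a b * inner ℝ a c) / (cos (tau a b) * cos (tau a c)) := by
  rw [cos_tau, cos_tau]
  unfold pr
  rw [inner_smul_left, inner_smul_right, inner_sub_left, inner_sub_right, inner_sub_right, inner_smul_left, inner_smul_right,
    inner_smul_left, inner_smul_right, real_inner_self_eq_norm_sq, ha, real_inner_comm a b]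
  simp only [conj_trivial]
  rw [div_eq_inv_mul, mul_inv]
  ring

theorem tau_pr_eq {a b c : E} (ha : ‖a‖ = 1) (h1 : |inner ℝ a b| < 1) (h2 : |inner ℝ a c| < 1) :
    tau (pr a b) (pr a c) = arcsin (|inner ℝ b c - inner ℝ a b * inner ℝ a c| / (cos (tau a b) * cos (tau a c))) := by
  conv_lhs => unfold tau
  rw [inner_pr ha, abs_div]
  congr 2
  exact abs_of_pos (mul_pos (cos_pp (tau_nonneg _ _) (tau_lt h1)) (cos_pp (tau_nonneg _ _) (tau_lt h2)))

theorem gram_nonneg {u w D : E} (hu : ‖u‖ = 1) (hw : ‖w‖ = 1) (hD : ‖D‖ = 1) (hs : |inner ℝ u w| < 1) :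
    0 ≤ 1 - (inner ℝ u w) ^ 2 - (inner ℝ w D) ^ 2 - (inner ℝ D u) ^ 2 + 2 * inner ℝ u w * inner ℝ w D * inner ℝ D u := by
  obtain ⟨s, hsd⟩ : ∃ s, s = inner ℝ u w := ⟨_, rfl⟩
  obtain ⟨p, hp⟩ : ∃ p, p = inner ℝ D u := ⟨_, rfl⟩
  obtain ⟨q, hq⟩ : ∃ q, q = inner ℝ w D := ⟨_, rfl⟩
  have e1 : inner ℝ u u = (1 : ℝ) := by rw [real_inner_self_eq_norm_sq, hu]; norm_num
  have e2 : inner ℝ w w = (1 : ℝ) := by rw [real_inner_self_eq_norm_sq, hw]; norm_num
  have e6 : inner ℝ D D = (1 : ℝ) := by rw [real_inner_self_eq_norm_sq, hD]; norm_num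
  have e3 : inner ℝ w u = s := by rw [real_inner_comm, hsd]
  have e4 : inner ℝ u D = p := by rw [real_inner_comm, hp]
  have e5 : inner ℝ D w = q := by rw [real_inner_comm, hq]
  rw [← hsd] at hs ⊢
  rw [← hp, ← hq]
  have hpos := pos_of_lt hs
  have h : 0 ≤ inner ℝ ((1 - s ^ 2) • D - (p - s * q) • u - (q - s * p) • w)
      ((1 - s ^ 2) • D - (p - s * q) • u - (q - s * p) • w) := real_inner_self_nonneg
  simp only [inner_sub_left, inner_sub_right, inner_smul_left, inner_smul_right, e1, e2, e3, e4, e5, e6, ← hsd, ← hp, ← hq,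
    conj_trivial] at h
  have h2 : 0 ≤ (1 - s ^ 2) * (1 - s ^ 2 - q ^ 2 - p ^ 2 + 2 * s * q * p) := by
    refine h.trans (le_of_eq ?_)
    ring
  exact nonneg_of_mul_nonneg_right h2 hpos

/-- the inequality for three lines -/
theorem theta {u v w : E} (hu : ‖u‖ = 1) (hv : ‖v‖ = 1) (hw : ‖w‖ = 1) (huv : |inner ℝ u v| < 1) (hvw : |inner ℝ v w| < 1)
    (hwu : |inner ℝ w u| < 1) (h1 : tau u v + tau v w ≤ π / 2) (h2 : tau v w + tau w u ≤ π / 2)
    (h3 : tau w u + tau u v ≤ π / 2) :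
    (π / 2 - tau u v - tau w u) * tau (pr u v) (pr u w) + (π / 2 - tau u v - tau v w) * tau (pr v w) (pr v u) +
      (π / 2 - tau v w - tau w u) * tau (pr w u) (pr w v) ≤ π / 2 * (tau u v + tau v w + tau w u) := by
  have hvu : |inner ℝ v u| < 1 := by rw [real_inner_comm]; exact huv
  have hwv : |inner ℝ w v| < 1 := by rw [real_inner_comm]; exact hvw
  have huw : |inner ℝ u w| < 1 := by rw [real_inner_comm]; exact hwu
  have t1 := tau_pr_eq hu huv huw
  have t2 := tau_pr_eq hv hvw hvu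
  have t3 := tau_pr_eq hw hwu hwv
  rw [tau_comm u w] at t1
  rw [tau_comm v u] at t2
  rw [tau_comm w v] at t3
  have n1 := tau_nonneg u v
  have n2 := tau_nonneg v w
  have n3 := tau_nonneg w u
  have l1 := tau_lt huv
  have l2 := tau_lt hvw
  have l3 := tau_lt hwu
  have s1 := sin_tau huv
  have s2 := sin_tau hvw
  have s3 := sin_tau hwu
  have hG := gram_nonneg hu hv hw huv
  obtain ⟨x, hx⟩ : ∃ x, x = inner ℝ u v := ⟨_, rfl⟩
  obtain ⟨y, hy⟩ : ∃ y, y = inner ℝ v w := ⟨_, rfl⟩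
  obtain ⟨z, hz⟩ : ∃ z, z = inner ℝ w u := ⟨_, rfl⟩
  have ex : inner ℝ v u = x := by rw [real_inner_comm, hx]
  have ey : inner ℝ w v = y := by rw [real_inner_comm, hy]
  have ez : inner ℝ u w = z := by rw [real_inner_comm, hz]
  rw [← hx] at s1 hG
  rw [← hy] at s2 hG
  rw [← hz] at s3 hG
  rw [← hx, ← hy, ez] at t1
  rw [← hy, ex, ← hz] at t2
  rw [← hz, ey, ← hx] at t3
  rcases le_total (x * y * z) 0 with hneg | hpos
  · -- negative type
    have a1 : |y - x * z| = |y| + |x| * |z| := by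
      have h4 : 0 ≤ |y| + |x| * |z| := by positivity
      rw [← abs_of_nonneg h4, ← sq_eq_sq_iff_abs_eq_abs]
      have e1 : |y| ^ 2 = y ^ 2 := sq_abs y
      have e2 : |x| ^ 2 = x ^ 2 := sq_abs x
      have e3 : |z| ^ 2 = z ^ 2 := sq_abs z
      have e4 : |y| * (|x| * |z|) = -(x * y * z) := by
        rw [← abs_mul, ← abs_mul, ← abs_of_nonpos hneg]; congr 1; ring
      calc (y - x * z) ^ 2 = y ^ 2 - 2 * (x * y * z) + x ^ 2 * z ^ 2 := by ring
        _ = |y| ^ 2 + 2 * (|y| * (|x| * |z|)) + |x| ^ 2 * |z| ^ 2 := by rw [e1, e2, e3, e4]; ring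
        _ = _ := by ring
    have a2 : |z - y * x| = |z| + |y| * |x| := by
      have h4 : 0 ≤ |z| + |y| * |x| := by positivity
      rw [← abs_of_nonneg h4, ← sq_eq_sq_iff_abs_eq_abs]
      have e1 : |y| ^ 2 = y ^ 2 := sq_abs y
      have e2 : |x| ^ 2 = x ^ 2 := sq_abs x
      have e3 : |z| ^ 2 = z ^ 2 := sq_abs z
      have e4 : |z| * (|y| * |x|) = -(x * y * z) := by
        rw [← abs_mul, ← abs_mul, ← abs_of_nonpos hneg]; congr 1; ring
      calc (z - y * x) ^ 2 = z ^ 2 - 2 * (x * y * z) + y ^ 2 * x ^ 2 := by ring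
        _ = |z| ^ 2 + 2 * (|z| * (|y| * |x|)) + |y| ^ 2 * |x| ^ 2 := by rw [e1, e2, e3, e4]; ring
        _ = _ := by ring
    have a3 : |x - z * y| = |x| + |z| * |y| := by
      have h4 : 0 ≤ |x| + |z| * |y| := by positivity
      rw [← abs_of_nonneg h4, ← sq_eq_sq_iff_abs_eq_abs]
      have e1 : |y| ^ 2 = y ^ 2 := sq_abs y
      have e2 : |x| ^ 2 = x ^ 2 := sq_abs x
      have e3 : |z| ^ 2 = z ^ 2 := sq_abs z
      have e4 : |x| * (|z| * |y|) = -(x * y * z) := by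
        rw [← abs_mul, ← abs_mul, ← abs_of_nonpos hneg]; congr 1; ring
      calc (x - z * y) ^ 2 = x ^ 2 - 2 * (x * y * z) + z ^ 2 * y ^ 2 := by ring
        _ = |x| ^ 2 + 2 * (|x| * (|z| * |y|)) + |z| ^ 2 * |y| ^ 2 := by rw [e1, e2, e3, e4]; ring
        _ = _ := by ring
    rw [a1, ← s1, ← s2, ← s3] at t1
    rw [a2, ← s1, ← s2, ← s3] at t2
    rw [a3, ← s1, ← s2, ← s3] at t3
    have hD : 0 ≤ Dt (tau u v) (tau v w) (tau w u) := by
      unfold Dt
      rw [s1, s2, s3, sq_abs, sq_abs, sq_abs]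
      have e4 : |x| * |y| * |z| = -(x * y * z) := by
        rw [← abs_mul, ← abs_mul, ← abs_of_nonpos hneg]
      have e5 : 2 * |x| * |y| * |z| = 2 * (|x| * |y| * |z|) := by ring
      rw [e5, e4]
      linarith
    have h4 := theta_neg n1 l1 n2 l2 n3 l3 hD
    have r1 : tau (pr u v) (pr u w) = wn (tau v w) (tau w u) (tau u v) := by
      rw [t1]; unfold wn; rw [mul_comm (cos (tau u v)), mul_comm (sin (tau u v))]
    have r2 : tau (pr v w) (pr v u) = wn (tau w u) (tau u v) (tau v w) := by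
      rw [t2]; unfold wn; rw [mul_comm (cos (tau v w)), mul_comm (sin (tau v w))]
    have r3 : tau (pr w u) (pr w v) = wn (tau u v) (tau v w) (tau w u) := by
      rw [t3]; unfold wn; rw [mul_comm (cos (tau w u)), mul_comm (sin (tau w u))]
    rw [r1, r2, r3]
    linarith
  · -- positive type
    have a1 : |y - x * z| = |(|y| - |x| * |z|)| := by
      rw [← sq_eq_sq_iff_abs_eq_abs]
      have e1 : |y| ^ 2 = y ^ 2 := sq_abs y
      have e2 : |x| ^ 2 = x ^ 2 := sq_abs x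
      have e3 : |z| ^ 2 = z ^ 2 := sq_abs z
      have e4 : |y| * (|x| * |z|) = x * y * z := by
        rw [← abs_mul, ← abs_mul, ← abs_of_nonneg hpos]; congr 1; ring
      calc (y - x * z) ^ 2 = y ^ 2 - 2 * (x * y * z) + x ^ 2 * z ^ 2 := by ring
        _ = |y| ^ 2 - 2 * (|y| * (|x| * |z|)) + |x| ^ 2 * |z| ^ 2 := by rw [e1, e2, e3, e4]
        _ = _ := by ring
    have a2 : |z - y * x| = |(|z| - |y| * |x|)| := by
      rw [← sq_eq_sq_iff_abs_eq_abs]
      have e1 : |y| ^ 2 = y ^ 2 := sq_abs y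
      have e2 : |x| ^ 2 = x ^ 2 := sq_abs x
      have e3 : |z| ^ 2 = z ^ 2 := sq_abs z
      have e4 : |z| * (|y| * |x|) = x * y * z := by
        rw [← abs_mul, ← abs_mul, ← abs_of_nonneg hpos]; congr 1; ring
      calc (z - y * x) ^ 2 = z ^ 2 - 2 * (x * y * z) + y ^ 2 * x ^ 2 := by ring
        _ = |z| ^ 2 - 2 * (|z| * (|y| * |x|)) + |y| ^ 2 * |x| ^ 2 := by rw [e1, e2, e3, e4]
        _ = _ := by ring
    have a3 : |x - z * y| = |(|x| - |z| * |y|)| := by
      rw [← sq_eq_sq_iff_abs_eq_abs]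
      have e1 : |y| ^ 2 = y ^ 2 := sq_abs y
      have e2 : |x| ^ 2 = x ^ 2 := sq_abs x
      have e3 : |z| ^ 2 = z ^ 2 := sq_abs z
      have e4 : |x| * (|z| * |y|) = x * y * z := by
        rw [← abs_mul, ← abs_mul, ← abs_of_nonneg hpos]; congr 1; ring
      calc (x - z * y) ^ 2 = x ^ 2 - 2 * (x * y * z) + z ^ 2 * y ^ 2 := by ring
        _ = |x| ^ 2 - 2 * (|x| * (|z| * |y|)) + |z| ^ 2 * |y| ^ 2 := by rw [e1, e2, e3, e4]
        _ = _ := by ring
    rw [a1, ← s1, ← s2, ← s3] at t1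
    rw [a2, ← s1, ← s2, ← s3] at t2
    rw [a3, ← s1, ← s2, ← s3] at t3
    have h4 := theta_pos n1 l1 n2 l2 n3 l3 h1 h2 h3
    have r1 : tau (pr u v) (pr u w) = wp (tau v w) (tau w u) (tau u v) := by
      rw [t1]; unfold wp; rw [mul_comm (cos (tau u v)), mul_comm (sin (tau u v))]
    have r2 : tau (pr v w) (pr v u) = wp (tau w u) (tau u v) (tau v w) := by
      rw [t2]; unfold wp; rw [mul_comm (cos (tau v w)), mul_comm (sin (tau v w))]
    have r3 : tau (pr w u) (pr w v) = wp (tau u v) (tau v w) (tau w u) := by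
      rw [t3]; unfold wp; rw [mul_comm (cos (tau w u)), mul_comm (sin (tau w u))]
    rw [r1, r2, r3]
    linarith

end Pool.Agent.H88FU
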